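import Pool.Agent.N637.SLX.Stm

/-! # SLX/SER: a series of Euler -/

set_option autoImplicit false

open Finset Filter Topology

namespace Pool.Agent.N494.SLX

open Pool.Agent.N637.SLX

lemma qf_zero : qf 0 = 1 := by
  unfold qf
  simp

lemma qf_succ (i : ℕ) : qf (i + 1) = qf i * ((2 : ℝ) ^ (i + 1) - 1) := by
  unfold qf
  rw [prod_range_succ]

lemma fac (s : ℕ) : (2 : ℝ) ^ s ≤ (2 : ℝ) ^ (s + 1) - 1 := by
  have h1 : (1 : ℝ) ≤ 2 ^ s := one_le_pow₀ (by norm_num)
  rw [pow_succ]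
  linarith

lemma one_le_qf (i : ℕ) : 1 ≤ qf i := by
  induction i with
  | zero => rw [qf_zero]
  | succ i ih =>
    rw [qf_succ]
    have h1 : (1 : ℝ) ≤ 2 ^ i := one_le_pow₀ (by norm_num)
    have h2 := fac i
    nlinarith

lemma qf_pos (i : ℕ) : 0 < qf i := lt_of_lt_of_le one_pos (one_le_qf i)

lemma inv_qf (i : ℕ) : 1 / qf i ≤ 2 * (1 / 2 : ℝ) ^ i := by
  rcases i with - | i
  · rw [qf_zero]
    norm_num
  · have h1 : (2 : ℝ) ^ i ≤ qf (i + 1) := by
      rw [qf_succ]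
      have h2 := one_le_qf i
      have h3 := fac i
      have h4 : (0 : ℝ) < 2 ^ i := by positivity
      nlinarith
    have h4 : (0 : ℝ) < 2 ^ i := by positivity
    calc 1 / qf (i + 1) ≤ 1 / 2 ^ i := one_div_le_one_div_of_le h4 h1
      _ = 2 * (1 / 2 : ℝ) ^ (i + 1) := by
        rw [pow_succ, one_div_pow]
        ring

/-- the terms -/
noncomputable def t (r i : ℕ) : ℝ := (-1 : ℝ) ^ i / (2 ^ (r * i) * qf i)

lemma abs_t (r i : ℕ) : |t r i| = (1 / 2 : ℝ) ^ (r * i) * (1 / qf i) := by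
  unfold t
  rw [abs_div, abs_pow, abs_neg, abs_one, one_pow, abs_of_pos (mul_pos (by positivity) (qf_pos i)),
    one_div_pow]
  have := qf_pos i
  field_simp

lemma abs_t_le (r i : ℕ) : |t r i| ≤ 2 * (1 / 2 : ℝ) ^ i := by
  rw [abs_t]
  have h1 : (1 / 2 : ℝ) ^ (r * i) ≤ 1 := pow_le_one₀ (by norm_num) (by norm_num)
  have h2 := inv_qf i
  have h3 : 0 < 1 / qf i := one_div_pos.2 (qf_pos i)
  nlinarith

lemma summable_t (r : ℕ) : Summable (t r) :=
  Summable.of_norm_bounded ((summable_geometric_of_lt_one (by norm_num)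
    (by norm_num : (1 / 2 : ℝ) < 1)).mul_left 2) fun i => by
      rw [Real.norm_eq_abs]
      exact abs_t_le r i

/-- the sum -/
noncomputable def S (r : ℕ) : ℝ := ∑' i, t r i

lemma rec_t (r j : ℕ) : t r (j + 1) - t (r + 1) (j + 1) = -((1 / 2 : ℝ) ^ (r + 1) * t (r + 1) j) := by
  unfold t
  rw [qf_succ]
  have h1 := qf_pos j
  have h2 : (0 : ℝ) < 2 ^ (j + 1) - 1 := lt_of_lt_of_le (by positivity) (fac j)
  have e1 : (2 : ℝ) ^ ((r + 1) * (j + 1)) = 2 ^ (r * (j + 1)) * 2 ^ (j + 1) := by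
    rw [← pow_add]
    congr 1
    ring
  have e2 : (2 : ℝ) ^ (r * (j + 1)) * 2 ^ (j + 1) = 2 ^ (r + 1) * 2 ^ ((r + 1) * j) := by
    rw [← pow_add, ← pow_add]
    congr 1
    ring
  have e3 : (-1 : ℝ) ^ (j + 1) / (2 ^ (r * (j + 1)) * (qf j * (2 ^ (j + 1) - 1))) -
      (-1 : ℝ) ^ (j + 1) / (2 ^ ((r + 1) * (j + 1)) * (qf j * (2 ^ (j + 1) - 1))) =
      (-1 : ℝ) ^ (j + 1) / (2 ^ (r * (j + 1)) * 2 ^ (j + 1) * qf j) := by
    rw [e1]
    field_simp
  rw [e3, e2, one_div_pow, pow_succ]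
  field_simp

lemma rec_S (r : ℕ) : S r = (1 - (1 / 2 : ℝ) ^ (r + 1)) * S (r + 1) := by
  have h1 : S r - S (r + 1) = -((1 / 2 : ℝ) ^ (r + 1) * S (r + 1)) := by
    have h2 : S r - S (r + 1) = ∑' i, (t r i - t (r + 1) i) :=
      ((summable_t r).tsum_sub (summable_t (r + 1))).symm
    have h3 := ((summable_t r).sub (summable_t (r + 1))).tsum_eq_zero_add
    have h4 : t r 0 - t (r + 1) 0 = 0 := by
      unfold t
      simp
    rw [h2, h3, h4, zero_add, tsum_congr (rec_t r), tsum_neg, tsum_mul_left]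
    rfl
  linarith

lemma prod_S (r L : ℕ) : S r = (∏ l ∈ range L, (1 - (1 / 2 : ℝ) ^ (r + 1 + l))) * S (r + L) := by
  induction L with
  | zero => simp
  | succ L ih =>
    rw [prod_range_succ, mul_assoc]
    have h1 := rec_S (r + L)
    have e : r + L + 1 = r + 1 + L := by ring
    rw [e] at h1
    rw [show r + (L + 1) = r + 1 + L by ring, ← h1, ← ih]

lemma S_near (R : ℕ) : |S R - 1| ≤ 2 * (1 / 2 : ℝ) ^ R := by
  have h1 := (summable_t R).tsum_eq_zero_add
  have h2 : t R 0 = 1 := by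
    unfold t
    simp [qf_zero]
  have h3 : S R - 1 = ∑' j, t R (j + 1) := by
    unfold S
    rw [h1, h2]
    ring
  have h4 : HasSum (fun j : ℕ => (1 / 2 : ℝ) ^ R * (1 / 2 : ℝ) ^ j) ((1 / 2 : ℝ) ^ R * 2) := by
    have := hasSum_geometric_of_lt_one (by norm_num : (0 : ℝ) ≤ 1 / 2) (by norm_num)
    have h5 : (1 - 1 / 2 : ℝ)⁻¹ = 2 := by norm_num
    rw [h5] at this
    exact this.mul_left _
  rw [h3, ← Real.norm_eq_abs, mul_comm]
  refine tsum_of_norm_bounded h4 fun j => ?_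
  rw [Real.norm_eq_abs, abs_t]
  have h5 : (1 / 2 : ℝ) ^ (R * (j + 1)) ≤ (1 / 2 : ℝ) ^ R :=
    pow_le_pow_of_le_one (by norm_num) (by norm_num) (by nlinarith)
  have h6 : 1 / qf (j + 1) ≤ (1 / 2 : ℝ) ^ j := by
    refine (inv_qf (j + 1)).trans (le_of_eq ?_)
    rw [pow_succ]
    ring
  exact mul_le_mul h5 h6 (one_div_pos.2 (qf_pos _)).le (by positivity)

theorem t_SER : S_SER := by
  intro r
  have hsum : Tendsto (fun m : ℕ => ∑ i ∈ range (m + 1), t r i) atTop (𝓝 (S r)) :=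
    ((summable_t r).hasSum.tendsto_sum_nat).comp (tendsto_add_atTop_nat 1)
  have hmul : Multipliable fun l : ℕ => (1 - (1 / 2 : ℝ) ^ (r + 1 + l)) := by
    have h1 : Summable fun l : ℕ => ‖-((1 / 2 : ℝ) ^ (r + 1 + l))‖ := by
      have h2 : Summable fun l : ℕ => (1 / 2 : ℝ) ^ (r + 1) * (1 / 2 : ℝ) ^ l :=
        (summable_geometric_of_lt_one (by norm_num) (by norm_num)).mul_left _
      refine h2.congr fun l => ?_
      rw [norm_neg, Real.norm_eq_abs, abs_of_nonneg (by positivity), pow_add _ (r + 1) l]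
    have h3 := multipliable_one_add_of_summable h1
    refine h3.congr fun l => ?_
    ring
  have hprod := hmul.hasProd.tendsto_prod_nat
  have hS : Tendsto (fun L : ℕ => S (r + L)) atTop (𝓝 1) := by
    rw [tendsto_iff_norm_sub_tendsto_zero]
    have h1 : Tendsto (fun L : ℕ => 2 * (1 / 2 : ℝ) ^ (r + L)) atTop (𝓝 0) := by
      have h2 : Tendsto (fun n : ℕ => (1 / 2 : ℝ) ^ n) atTop (𝓝 0) :=
        tendsto_pow_atTop_nhds_zero_of_lt_one (by norm_num) (by norm_num)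
      have h3 := (h2.comp (tendsto_add_atTop_nat r)).const_mul 2
      rw [mul_zero] at h3
      refine h3.congr fun L => ?_
      simp only [Function.comp_apply]
      rw [add_comm L r]
    exact squeeze_zero (fun L => norm_nonneg _) (fun L => by
      rw [Real.norm_eq_abs]
      exact S_near (r + L)) h1
  have hlim := hprod.mul hS
  rw [mul_one] at hlim
  have hconst : Tendsto (fun L : ℕ => (∏ l ∈ range L, (1 - (1 / 2 : ℝ) ^ (r + 1 + l))) * S (r + L))
      atTop (𝓝 (S r)) := by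
    refine (tendsto_const_nhds (x := S r)).congr fun L => prod_S r L
  have heq := tendsto_nhds_unique hlim hconst
  rw [heq]
  exact hsum

end Pool.Agent.N494.SLX
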